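import Pool.Agent.Zenkov.BaerSuzuki

/-!
# Zenkov's theorem on intersections of abelian subgroups

If `A` and `B` are abelian subgroups of a finite group `G` and `A ∩ B` is minimal among the
subgroups `A ∩ B ^ g`, then every `p`-element of `A ∩ B` lies in a normal `p`-subgroup of `G`.
Consequently, if `G` has trivial solvable radical, then `A ∩ B ^ g = 1` for some `g`.
-/

namespace Pool.Agent.Zenkov

open Subgroup

universe u

/-- the conjugate `g B g⁻¹` -/
def cj {G : Type u} [Group G] (g : G) (B : Subgroup G) : Subgroup G :=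
  B.map (MulAut.conj g).toMonoidHom

lemma mem_cj {G : Type u} [Group G] {g x : G} {B : Subgroup G} :
    x ∈ cj g B ↔ g⁻¹ * x * g ∈ B := by
  constructor
  · rintro ⟨b, hb, rfl⟩
    have : g⁻¹ * (g * b * g⁻¹) * g = b := by group
    show g⁻¹ * (g * b * g⁻¹) * g ∈ B
    rw [this]
    exact hb
  · intro h
    exact ⟨_, h, by show g * (g⁻¹ * x * g) * g⁻¹ = x; group⟩

lemma cj_cj {G : Type u} [Group G] (g h : G) (B : Subgroup G) : cj g (cj h B) = cj (g * h) B := by
  ext x
  rw [mem_cj, mem_cj, mem_cj]
  have : h⁻¹ * (g⁻¹ * x * g) * h = (g * h)⁻¹ * x * (g * h) := by group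
  rw [this]

/-- Zenkov's theorem, local form. -/
theorem zenkov_aux (p : ℕ) [Fact p.Prime] : ∀ (n : ℕ) (G : Type u) [Group G] [Finite G],
    Nat.card G ≤ n → ∀ A B : Subgroup G, (∀ a ∈ A, ∀ b ∈ A, a * b = b * a) →
      (∀ a ∈ B, ∀ b ∈ B, a * b = b * a) →
      (∀ g : G, A ⊓ cj g B ≤ A ⊓ B → A ⊓ B ≤ A ⊓ cj g B) →
      ∀ x ∈ A ⊓ B, IsPGroup p (zpowers x) →
        ∃ N : Subgroup G, N.Normal ∧ IsPGroup p N ∧ x ∈ N := by
  intro n
  induction n with
  | zero =>
    intro G _ _ hn
    exact absurd hn (by have := Nat.card_pos (α := G); omega)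
  | succ n ih =>
    intro G _ _ hn A B hA hB hmin x hx hxp
    by_cases hcase : ∃ g : G, A ⊔ cj g B = ⊤
    · obtain ⟨g, hg⟩ := hcase
      -- the intersection is central
      have hcent : ∀ y ∈ A ⊓ cj g B, ∀ z : G, y * z = z * y := by
        intro y hy z
        have h1 : A ⊔ cj g B ≤ centralizer {y} := by
          apply sup_le
          · intro a ha
            rw [mem_centralizer_singleton_iff]
            exact hA a ha y hy.1
          · intro b hb
            rw [mem_centralizer_singleton_iff]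
            have h2 := hB _ (mem_cj.1 hb) _ (mem_cj.1 hy.2)
            have h3 : g * (g⁻¹ * b * g * (g⁻¹ * y * g)) * g⁻¹ =
                g * (g⁻¹ * y * g * (g⁻¹ * b * g)) * g⁻¹ := by rw [h2]
            have h4 : g * (g⁻¹ * b * g * (g⁻¹ * y * g)) * g⁻¹ = b * y := by group
            have h5 : g * (g⁻¹ * y * g * (g⁻¹ * b * g)) * g⁻¹ = y * b := by group
            rw [h4, h5] at h3
            exact h3
        rw [hg] at h1
        have h2 := h1 (mem_top z)
        rw [mem_centralizer_singleton_iff] at h2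
        exact h2.symm
      have hle : A ⊓ cj g B ≤ A ⊓ B := by
        intro y hy
        refine ⟨hy.1, ?_⟩
        have h1 := mem_cj.1 hy.2
        have h2 : g⁻¹ * y * g = y := by
          rw [mul_assoc, hcent y hy g, inv_mul_cancel_left]
        rwa [h2] at h1
      have hx' : x ∈ A ⊓ cj g B := hmin g hle hx
      refine ⟨zpowers x, ?_, hxp, mem_zpowers x⟩
      refine ⟨fun y hy z => ?_⟩
      obtain ⟨k, rfl⟩ := mem_zpowers_iff.1 hy
      have h1 : Commute z x := (hcent x hx' z).symm
      have h2 : z * x ^ k * z⁻¹ = x ^ k := by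
        rw [(h1.zpow_right k).eq, mul_inv_cancel_right]
      rw [h2]
      exact zpow_mem (mem_zpowers x) k
    · push Not at hcase
      apply baer_suzuki
      intro g
      -- work inside `H = ⟨A, g B g⁻¹⟩`
      let H : Subgroup G := A ⊔ cj g B
      have hH : H ≠ ⊤ := hcase g
      have hAH : A ≤ H := le_sup_left
      have hBH : cj g B ≤ H := le_sup_right
      have hcardH : Nat.card H ≤ n := by
        have h1 : Nat.card H < Nat.card G := by
          have h2 : Nat.card H ≤ Nat.card G := Nat.card_le_card_of_injective _ H.subtype_injective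
          refine lt_of_le_of_ne h2 fun h3 => hH ?_
          exact H.eq_top_of_card_eq h3
        omega
      have hcjmem : ∀ (h : H) (y : H), y ∈ cj h ((B ⊓ H).subgroupOf H) ↔ (y : G) ∈ cj (h : G) B := by
        intro h y
        rw [mem_cj, mem_subgroupOf, mem_cj]
        constructor
        · intro h1
          exact h1.1
        · intro h1
          refine ⟨h1, ?_⟩
          exact (h⁻¹ * y * h).2
      obtain ⟨N, hN1, hN2, hN3⟩ := ih H hcardH (A.subgroupOf H) ((B ⊓ H).subgroupOf H)
        (by
          intro a ha b hb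
          exact Subtype.ext (hA a (mem_subgroupOf.1 ha) b (mem_subgroupOf.1 hb)))
        (by
          intro a ha b hb
          exact Subtype.ext (hB a (mem_subgroupOf.1 ha).1 b (mem_subgroupOf.1 hb).1))
        (by
          intro h hle y hy
          refine ⟨hy.1, (hcjmem h y).2 ?_⟩
          have h1 : A ⊓ cj (h : G) B ≤ A ⊓ B := by
            intro z hz
            have h2 : (⟨z, hAH hz.1⟩ : H) ∈ A.subgroupOf H ⊓ cj h ((B ⊓ H).subgroupOf H) :=
              ⟨mem_subgroupOf.2 hz.1, (hcjmem h _).2 hz.2⟩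
            have h3 := hle h2
            exact ⟨hz.1, (mem_subgroupOf.1 h3.2).1⟩
          exact (hmin h h1 ⟨mem_subgroupOf.1 hy.1, (mem_subgroupOf.1 hy.2).1⟩).2)
        ⟨x, hAH hx.1⟩ ⟨mem_subgroupOf.2 hx.1, mem_subgroupOf.2 ⟨hx.2, hAH hx.1⟩⟩
        (by
          have h1 : (zpowers (⟨x, hAH hx.1⟩ : H)).map H.subtype = zpowers x := by
            rw [MonoidHom.map_zpowers]
            rfl
          rw [← h1] at hxp
          intro y
          obtain ⟨k, hk⟩ := hxp ⟨_, ⟨(y : H), y.2, rfl⟩⟩
          refine ⟨k, ?_⟩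
          apply Subtype.ext
          apply Subtype.ext
          have h2 := congrArg Subtype.val hk
          simpa using h2)
      -- the conjugate of `x`
      have hgx : g * x * g⁻¹ ∈ H := by
        apply hBH
        rw [mem_cj]
        have : g⁻¹ * (g * x * g⁻¹) * g = x := by group
        rw [this]
        exact hx.2
      let y : H := ⟨g * x * g⁻¹, hgx⟩
      have hyp : IsPGroup p (zpowers (y : G)) := by
        have h1 : zpowers (y : G) = (zpowers x).map (MulAut.conj g).toMonoidHom := by
          rw [MonoidHom.map_zpowers]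
          rfl
        rw [h1]
        exact hxp.map _
      have hyp' : IsPGroup p (zpowers y) := by
        intro z
        have h1 : ((z : H) : G) ∈ zpowers (y : G) := by
          obtain ⟨k, hk⟩ := mem_zpowers_iff.1 z.2
          rw [← hk]
          exact mem_zpowers_iff.2 ⟨k, by simp⟩
        obtain ⟨k, hk⟩ := hyp ⟨_, h1⟩
        refine ⟨k, ?_⟩
        apply Subtype.ext
        apply Subtype.ext
        have h2 := congrArg Subtype.val hk
        simpa using h2
      have hsup : IsPGroup p (N ⊔ zpowers y : Subgroup H) :=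
        IsPGroup.to_sup_of_normal_left hN2 hyp'
      have hle : closure {x, g * x * g⁻¹} ≤ (N ⊔ zpowers y).map H.subtype := by
        rw [closure_le]
        rintro z (rfl | rfl)
        · exact ⟨_, mem_sup_left hN3, rfl⟩
        · exact ⟨y, mem_sup_right (mem_zpowers y), rfl⟩
      exact (hsup.map _).to_le hle

/-- Zenkov's theorem for groups with trivial solvable radical. -/
theorem zenkov {G : Type u} [Group G] [Finite G]
    (hG : ∀ N : Subgroup G, N.Normal → Group.IsSolvable N → N = ⊥) (A B : Subgroup G)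
    (hA : ∀ a ∈ A, ∀ b ∈ A, a * b = b * a) (hB : ∀ a ∈ B, ∀ b ∈ B, a * b = b * a) :
    ∃ g : G, A ⊓ cj g B = ⊥ := by
  classical
  -- minimise the intersection
  obtain ⟨g, -, hg⟩ := (Set.toFinite (Set.univ : Set G)).exists_minimalFor
    (fun g => Nat.card (A ⊓ cj g B : Subgroup G)) _ ⟨1, trivial⟩
  refine ⟨g, ?_⟩
  by_contra hne
  set B' := cj g B with hB'
  have hmin : ∀ h : G, A ⊓ cj h B' ≤ A ⊓ B' → A ⊓ B' ≤ A ⊓ cj h B' := by
    intro h hle
    have h1 : Nat.card (A ⊓ cj h B' : Subgroup G) ≤ Nat.card (A ⊓ B' : Subgroup G) :=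
      Nat.card_le_card_of_injective _ (Subgroup.inclusion_injective hle)
    have h2 : Nat.card (A ⊓ B' : Subgroup G) ≤ Nat.card (A ⊓ cj h B' : Subgroup G) := by
      have h3 := hg (j := h * g) trivial
      have h4 : cj (h * g) B = cj h B' := by rw [hB', cj_cj]
      simp only [h4] at h3
      exact h3 h1
    exact (Subgroup.eq_of_le_of_card_ge hle h2).ge
  have hB'c : ∀ a ∈ B', ∀ b ∈ B', a * b = b * a := by
    intro a ha b hb
    have h2 := hB _ (mem_cj.1 ha) _ (mem_cj.1 hb)
    have h3 : g * (g⁻¹ * a * g * (g⁻¹ * b * g)) * g⁻¹ =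
        g * (g⁻¹ * b * g * (g⁻¹ * a * g)) * g⁻¹ := by rw [h2]
    have h4 : g * (g⁻¹ * a * g * (g⁻¹ * b * g)) * g⁻¹ = a * b := by group
    have h5 : g * (g⁻¹ * b * g * (g⁻¹ * a * g)) * g⁻¹ = b * a := by group
    rw [h4, h5] at h3
    exact h3
  -- an element of prime order in the intersection
  have hcard : Nat.card (A ⊓ B' : Subgroup G) ≠ 1 := by
    intro h
    exact hne (Subgroup.card_eq_one.1 h)
  obtain ⟨p, hp, hpd⟩ := Nat.exists_prime_and_dvd hcard
  have : Fact p.Prime := ⟨hp⟩
  obtain ⟨x, hx⟩ := exists_prime_orderOf_dvd_card' p hpd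
  have hx' : orderOf (x : G) = p := by rw [Subgroup.orderOf_coe, hx]
  obtain ⟨N, hN1, hN2, hN3⟩ := zenkov_aux p (Nat.card G) G le_rfl A B' hA hB'c hmin x x.2
    (by
      apply IsPGroup.of_card (n := 1)
      rw [Nat.card_zpowers, hx', pow_one])
  have : Group.IsNilpotent N := hN2.isNilpotent
  have h1 := hG N hN1 inferInstance
  rw [h1, mem_bot] at hN3
  rw [hN3, orderOf_one] at hx'
  exact hp.one_lt.ne hx'

end Pool.Agent.Zenkov
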