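import Mathlib

/-!
# The Baer-Suzuki theorem

If `x` is an element of a finite group such that `x` and any conjugate of `x` generate a `p`-group,
then `x` lies in a normal `p`-subgroup. The proof follows Alperin and Lyons.
-/

namespace Pool.Agent.Zenkov

open Subgroup

variable {G : Type*} [Group G]

/-- normalisers grow: a subset `D` of a normal subset of the `p`-group `P` -/
lemma exists_normalizing [Finite G] {p : ℕ} [Fact p.Prime] {P : Subgroup G} (hP : IsPGroup p P)
    {K : Set G} (hK : ∀ k ∈ K, ∀ g : G, g * k * g⁻¹ ∈ K) {U₀ : Subgroup G} (hU₀ : U₀ ≤ P)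
    (hne : ∃ k ∈ K, k ∈ P ∧ k ∉ U₀) :
    ∃ u ∈ K, u ∈ P ∧ u ∉ U₀ ∧ ∀ d ∈ K, d ∈ U₀ → u * d * u⁻¹ ∈ U₀ := by
  classical
  -- choose `U` maximal with `K ∩ U = K ∩ U₀`
  let S : Set (Subgroup G) := {U | U₀ ≤ U ∧ U ≤ P ∧ ∀ k ∈ K, k ∈ U → k ∈ U₀}
  have hSfin : S.Finite := Set.toFinite S
  have hSne : S.Nonempty := ⟨U₀, le_rfl, hU₀, fun k _ h => h⟩
  obtain ⟨U, hU, hUmax⟩ := hSfin.exists_maximal hSne
  obtain ⟨hU1, hU2, hU3⟩ := hU
  have hUP : U < P := by
    refine lt_of_le_of_ne hU2 ?_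
    rintro rfl
    obtain ⟨k, hk1, hk2, hk3⟩ := hne
    exact hk3 (hU3 k hk1 hk2)
  -- the normaliser of `U` in `P` is larger
  have hgrow : ∃ g ∈ P, g ∉ U ∧ g ∈ normalizer (U : Set G) := by
    have : Group.IsNilpotent P := hP.isNilpotent
    have h1 := Group.normalizerCondition_of_isNilpotent (G := P)
    have h2 : U.subgroupOf P < ⊤ := by
      rw [lt_top_iff_ne_top]
      intro h
      rw [subgroupOf_eq_top] at h
      exact absurd hUP (not_lt_of_ge h)
    have h3 := h1 _ h2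
    obtain ⟨g, hg1, hg2⟩ := SetLike.exists_of_lt h3
    refine ⟨g, g.2, fun h => hg2 (mem_subgroupOf.2 h), ?_⟩
    rw [mem_normalizer_iff] at hg1 ⊢
    intro h
    constructor
    · intro hh
      have := (hg1 ⟨h, hU2 hh⟩).1 (mem_subgroupOf.2 hh)
      simpa [mem_subgroupOf] using this
    · intro hh
      have hhP : h ∈ P := by
        have h4 : (g : G)⁻¹ * (g * h * (g : G)⁻¹) * g ∈ P :=
          P.mul_mem (P.mul_mem (P.inv_mem g.2) (hU2 hh)) g.2
        simpa [mul_assoc] using h4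
      have := (hg1 ⟨h, hhP⟩).2 (by simpa [mem_subgroupOf] using hh)
      simpa [mem_subgroupOf] using this
  obtain ⟨g, hgP, hgU, hgN⟩ := hgrow
  let V : Subgroup G := P ⊓ normalizer (U : Set G)
  have hUV : U ≤ V := le_inf hU2 le_normalizer
  have hV : ∃ k ∈ K, k ∈ V ∧ k ∉ U₀ := by
    by_contra hcon
    push Not at hcon
    have h1 : V ∈ S := ⟨hU1.trans hUV, inf_le_left, hcon⟩
    have h2 := hUmax h1 hUV
    exact hgU (h2 ⟨hgP, hgN⟩)
  obtain ⟨u, hu1, hu2, hu3⟩ := hV
  refine ⟨u, hu1, hu2.1, hu3, fun d hd1 hd2 => ?_⟩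
  have h1 : u * d * u⁻¹ ∈ U := by
    have h5 : u ∈ normalizer (U : Set G) := hu2.2
    rw [mem_normalizer_iff] at h5
    exact (h5 d).1 (hU1 hd2)
  exact hU3 _ (hK d hd1 u) h1

/-- The Baer-Suzuki theorem. -/
theorem baer_suzuki [Finite G] {p : ℕ} [Fact p.Prime] (x : G)
    (hx : ∀ g : G, IsPGroup p (closure {x, g * x * g⁻¹})) :
    ∃ N : Subgroup G, N.Normal ∧ IsPGroup p N ∧ x ∈ N := by
  classical
  let K : Set G := {y | ∃ g : G, y = g * x * g⁻¹}
  have hK : ∀ k ∈ K, ∀ g : G, g * k * g⁻¹ ∈ K := by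
    rintro k ⟨h, rfl⟩ g
    exact ⟨g * h, by group⟩
  have hxK : x ∈ K := ⟨1, by simp⟩
  -- two elements of `K` generate a `p`-group
  have hpair : ∀ u ∈ K, ∀ v ∈ K, IsPGroup p (closure {u, v}) := by
    rintro u ⟨g, rfl⟩ v ⟨h, rfl⟩
    have h1 := hx (g⁻¹ * h)
    have h2 : closure {g * x * g⁻¹, h * x * h⁻¹} =
        (closure {x, g⁻¹ * h * x * (g⁻¹ * h)⁻¹}).map (MulAut.conj g).toMonoidHom := by
      rw [MonoidHom.map_closure]
      congr 1
      rw [Set.image_pair]
      have h3 : (MulAut.conj g).toMonoidHom x = g * x * g⁻¹ := rfl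
      have h4 : (MulAut.conj g).toMonoidHom (g⁻¹ * h * x * (g⁻¹ * h)⁻¹) = h * x * h⁻¹ := by
        show g * (g⁻¹ * h * x * (g⁻¹ * h)⁻¹) * g⁻¹ = h * x * h⁻¹
        group
      rw [h3, h4]
    rw [h2]
    exact h1.map _
  by_cases hall : ∀ P Q : Sylow p G, ∀ k ∈ K, k ∈ P → k ∈ Q
  · -- all elements of `K` lie in one Sylow subgroup
    obtain ⟨P⟩ : Nonempty (Sylow p G) := inferInstance
    have hKP : ∀ k ∈ K, k ∈ P := by
      intro k hk
      obtain ⟨Q, hQ⟩ := (hpair k hk k hk).exists_le_sylow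
      exact hall Q P k hk (hQ (subset_closure (by simp)))
    refine ⟨closure K, ?_, ?_, subset_closure hxK⟩
    · refine ⟨fun n hn g => ?_⟩
      have h1 : closure K ≤ (closure K).comap (MulAut.conj g).toMonoidHom := by
        rw [closure_le]
        intro k hk
        exact subset_closure (hK k hk g)
      exact h1 hn
    · exact P.2.to_le ((closure_le _).2 hKP)
  · -- choose a bad pair with large intersection
    exfalso
    push Not at hall
    let bad : Set (Sylow p G × Sylow p G) := {PQ | ∃ k ∈ K, k ∈ PQ.1 ∧ k ∉ PQ.2}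
    have hbadfin : bad.Finite := Set.toFinite _
    have hbadne : bad.Nonempty := by
      obtain ⟨P, Q, k, h1, h2, h3⟩ := hall
      exact ⟨(P, Q), k, h1, h2, h3⟩
    let f : Sylow p G × Sylow p G → ℕ := fun PQ => (K ∩ {k | k ∈ PQ.1 ∧ k ∈ PQ.2}).ncard
    obtain ⟨⟨P, Q⟩, hPQ, hmax⟩ := hbadfin.exists_maximalFor f bad hbadne
    have hmax' : ∀ R S : Sylow p G, (R, S) ∈ bad → f (R, S) ≤ f (P, Q) := by
      intro R S hRS
      by_contra hcon
      push Not at hcon
      exact absurd (hmax hRS hcon.le) (not_le_of_gt hcon)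
    -- the sets `K ∩ P` and `K ∩ Q` have the same size
    have hcard : ∀ R S : Sylow p G, (K ∩ {k | k ∈ R}).ncard = (K ∩ {k | k ∈ S}).ncard := by
      intro R S
      obtain ⟨g, hg⟩ := MulAction.exists_smul_eq G R S
      have h1 : K ∩ {k | k ∈ S} = (fun k => g * k * g⁻¹) '' (K ∩ {k | k ∈ R}) := by
        ext k
        constructor
        · rintro ⟨hk1, hk2⟩
          refine ⟨g⁻¹ * k * g, ⟨?_, ?_⟩, by group⟩
          · have := hK k hk1 g⁻¹
            simpa using this
          · have h2 : k ∈ (g • R : Sylow p G) := by rw [hg]; exact hk2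
            rw [← SetLike.mem_coe, Sylow.coe_smul, Set.mem_smul_set_iff_inv_smul_mem] at h2
            simpa [MulAut.smul_def] using h2
        · rintro ⟨l, ⟨hl1, hl2⟩, rfl⟩
          refine ⟨hK l hl1 g, ?_⟩
          show g * l * g⁻¹ ∈ S
          rw [← hg, ← SetLike.mem_coe, Sylow.coe_smul, Set.mem_smul_set_iff_inv_smul_mem]
          have : (MulAut.conj g)⁻¹ • (g * l * g⁻¹) = l := by
            simp [MulAut.smul_def, mul_assoc]
          rw [this]
          exact hl2
      rw [h1, Set.ncard_image_of_injective]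
      intro a b hab
      simpa using hab
    have hQP : ∃ k ∈ K, k ∈ Q ∧ k ∉ P := by
      by_contra hcon
      push Not at hcon
      have h1 : K ∩ {k | k ∈ Q} ⊆ K ∩ {k | k ∈ P} := fun k hk => ⟨hk.1, hcon k hk.1 hk.2⟩
      have h2 := Set.eq_of_subset_of_ncard_le h1 (hcard P Q).le (Set.toFinite _)
      obtain ⟨k, hk1, hk2, hk3⟩ := hPQ
      have h3 : k ∈ K ∩ {k | k ∈ Q} := by rw [h2]; exact ⟨hk1, hk2⟩
      exact hk3 h3.2
    -- the intersection
    let T : Subgroup G := (P : Subgroup G) ⊓ Q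
    obtain ⟨u, hu1, hu2, hu3, hu4⟩ := exists_normalizing P.2 hK (inf_le_left : T ≤ P) (by
      obtain ⟨k, hk1, hk2, hk3⟩ := hPQ
      exact ⟨k, hk1, hk2, fun h => hk3 h.2⟩)
    obtain ⟨v, hv1, hv2, hv3, hv4⟩ := exists_normalizing Q.2 hK (inf_le_right : T ≤ Q) (by
      obtain ⟨k, hk1, hk2, hk3⟩ := hQP
      exact ⟨k, hk1, hk2, fun h => hk3 h.1⟩)
    let D : Subgroup G := closure (K ∩ {k | k ∈ T})
    have hDT : D ≤ T := by
      rw [closure_le]
      exact fun k hk => hk.2
    have hDp : IsPGroup p D := P.2.to_le (hDT.trans inf_le_left)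
    have hnorm : ∀ w : G, (∀ d ∈ K, d ∈ T → w * d * w⁻¹ ∈ T) → w ∈ normalizer (D : Set G) := by
      intro w hw
      have h1 : D.map (MulAut.conj w).toMonoidHom ≤ D := by
        rw [MonoidHom.map_closure, closure_le]
        rintro _ ⟨k, hk, rfl⟩
        exact subset_closure ⟨hK k hk.1 w, hw k hk.1 hk.2⟩
      have h2 : D.map (MulAut.conj w).toMonoidHom = D := by
        apply SetLike.coe_injective
        apply Set.eq_of_subset_of_ncard_le h1
        · have h3 : Function.Injective ((MulAut.conj w).toMonoidHom : G → G) :=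
            (MulAut.conj w).injective
          rw [coe_map, Set.ncard_image_of_injective _ h3]
      rw [mem_normalizer_iff]
      intro h
      constructor
      · intro hh
        exact h1 ⟨h, hh, rfl⟩
      · intro hh
        have h3 : w * h * w⁻¹ ∈ D.map (MulAut.conj w).toMonoidHom := by rw [h2]; exact hh
        obtain ⟨d, hd1, hd2⟩ := h3
        have h4 : d = h := by
          have : w * d * w⁻¹ = w * h * w⁻¹ := hd2
          simpa using this
        rw [← h4]
        exact hd1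
    have hW : closure {u, v} ≤ normalizer (D : Set G) := by
      rw [closure_le]
      rintro w (rfl | rfl)
      · exact hnorm _ hu4
      · exact hnorm _ hv4
    have hWD : IsPGroup p (closure {u, v} ⊔ D : Subgroup G) :=
      IsPGroup.to_sup_of_normal_right' (hpair u hu1 v hv1) hDp hW
    obtain ⟨R, hR⟩ := hWD.exists_le_sylow
    have huR : u ∈ R := hR (mem_sup_left (subset_closure (by simp)))
    have hvR : v ∈ R := hR (mem_sup_left (subset_closure (by simp)))
    have hDR : ∀ k ∈ K, k ∈ T → k ∈ R := fun k hk1 hk2 =>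
      hR (mem_sup_right (subset_closure ⟨hk1, hk2⟩))
    -- larger intersections
    have hPR : (P, R) ∉ bad := by
      intro hbad
      have h1 := hmax' P R hbad
      have h2 : f (P, Q) < f (P, R) := by
        apply Set.ncard_lt_ncard _ (Set.toFinite _)
        refine ⟨fun k hk => ⟨hk.1, hk.2.1, hDR k hk.1 hk.2⟩, fun h => ?_⟩
        exact hu3 (h (⟨hu1, hu2, huR⟩ : u ∈ K ∩ {k | k ∈ P ∧ k ∈ R})).2
      omega
    have hQR : (Q, R) ∉ bad := by
      intro hbad
      have h1 := hmax' Q R hbad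
      have h2 : f (P, Q) < f (Q, R) := by
        apply Set.ncard_lt_ncard _ (Set.toFinite _)
        refine ⟨fun k hk => ⟨hk.1, hk.2.2, hDR k hk.1 hk.2⟩, fun h => ?_⟩
        have h3 := (h (⟨hv1, hv2, hvR⟩ : v ∈ K ∩ {k | k ∈ Q ∧ k ∈ R})).2
        exact hv3 h3
      omega
    -- hence `K ∩ P = K ∩ R = K ∩ Q`
    have hsub : ∀ S : Sylow p G, (S, R) ∉ bad → K ∩ {k | k ∈ S} = K ∩ {k | k ∈ R} := by
      intro S hS
      apply Set.eq_of_subset_of_ncard_le _ (hcard R S).le (Set.toFinite _)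
      intro k hk
      by_contra hcon
      exact hS ⟨k, hk.1, hk.2, fun h => hcon ⟨hk.1, h⟩⟩
    obtain ⟨k, hk1, hk2, hk3⟩ := hPQ
    have h1 : k ∈ K ∩ {k | k ∈ P} := ⟨hk1, hk2⟩
    rw [hsub P hPR, ← hsub Q hQR] at h1
    exact hk3 h1.2

end Pool.Agent.Zenkov
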