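import Pool.Agent.Zenkov.Abelian

/-!
# Conjugates of solvable subgroups of derived length `l`

In a finite group with trivial solvable radical, `2 ^ l` conjugates of a subgroup of derived length
at most `l` have trivial intersection.
-/

namespace Pool.Agent.Zenkov

open Subgroup
open scoped commutatorElement

universe u

variable {G : Type u} [Group G]

/-- elements of the derived series of `E` are mapped into the derived series by homomorphisms -/
lemma map_mem_derived {E D : Subgroup G} (f : E →* D) (n : ℕ) {y : E}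
    (hy : y ∈ derivedSeries E n) : f y ∈ derivedSeries D n :=
  map_derivedSeries_le_derivedSeries f n ⟨y, hy, rfl⟩

/-- the conjugation `E → D`, `y ↦ g⁻¹ y g`, if `g⁻¹ E g ≤ D` -/
def conjHom {E D : Subgroup G} (g : G) (h : ∀ y ∈ E, g⁻¹ * y * g ∈ D) : E →* D where
  toFun y := ⟨g⁻¹ * y * g, h y y.2⟩
  map_one' := Subtype.ext (by simp)
  map_mul' a b := Subtype.ext (by
    show g⁻¹ * (a * b) * g = g⁻¹ * a * g * (g⁻¹ * b * g)
    group)

theorem exists_list [Finite G]
    (hG : ∀ N : Subgroup G, N.Normal → Group.IsSolvable N → N = ⊥) :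
    ∀ (l : ℕ) (D : Subgroup G), derivedSeries D l = ⊥ →
      ∃ L : List G, L.length = 2 ^ l ∧ ∀ y : G, (∀ g ∈ L, g⁻¹ * y * g ∈ D) → y = 1 := by
  intro l
  induction l with
  | zero =>
    intro D hD
    refine ⟨[1], rfl, fun y hy => ?_⟩
    have h1 := hy 1 (by simp)
    rw [derivedSeries_zero] at hD
    have h2 : (⟨_, h1⟩ : D) ∈ (⊤ : Subgroup D) := mem_top _
    rw [hD, mem_bot] at h2
    have h3 := congrArg Subtype.val h2
    simpa using h3
  | succ l ih =>
    intro D hD
    let A : Subgroup G := (derivedSeries D l).map D.subtype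
    have hA : ∀ a ∈ A, ∀ b ∈ A, a * b = b * a := by
      rintro _ ⟨a, ha, rfl⟩ _ ⟨b, hb, rfl⟩
      have h1 : ⁅a, b⁆ ∈ derivedSeries D (l + 1) := commutator_mem_commutator ha hb
      rw [hD, mem_bot, commutatorElement_eq_one_iff_mul_comm] at h1
      exact congrArg Subtype.val h1
    obtain ⟨g, hg⟩ := zenkov hG A A hA hA
    let E : Subgroup G := D ⊓ cj g D
    have hE1 : ∀ y ∈ E, (1 : G)⁻¹ * y * 1 ∈ D := fun y hy => by simpa using hy.1
    have hE2 : ∀ y ∈ E, g⁻¹ * y * g ∈ D := fun y hy => mem_cj.1 hy.2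
    have hE : derivedSeries E l = ⊥ := by
      rw [eq_bot_iff]
      intro y hy
      rw [mem_bot]
      have h1 : (y : G) ∈ A := by
        refine ⟨_, map_mem_derived (conjHom 1 hE1) l hy, ?_⟩
        show (1 : G)⁻¹ * y * 1 = y
        simp
      have h2 : (y : G) ∈ cj g A := by
        rw [mem_cj]
        exact ⟨_, map_mem_derived (conjHom g hE2) l hy, rfl⟩
      have h3 : (y : G) ∈ A ⊓ cj g A := ⟨h1, h2⟩
      rw [hg, mem_bot] at h3
      exact Subtype.ext h3
    obtain ⟨L, hL1, hL2⟩ := ih E hE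
    refine ⟨L ++ L.map (fun h => h * g), ?_, fun y hy => hL2 y fun h hh => ?_⟩
    · rw [List.length_append, List.length_map, hL1, pow_succ]
      omega
    · refine ⟨hy h (List.mem_append_left _ hh), mem_cj.2 ?_⟩
      have h1 := hy (h * g) (List.mem_append_right _ (List.mem_map.2 ⟨h, hh, rfl⟩))
      have h2 : g⁻¹ * (h⁻¹ * y * h) * g = (h * g)⁻¹ * y * (h * g) := by group
      rw [h2]
      exact h1

end Pool.Agent.Zenkov
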